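import Pool.Agent.H508R3.WS.Fin
import Pool.Agent.H508R3.WS.A1x
import Pool.Agent.H508R3.WS.A2
import Pool.Agent.H189R3.WS.A3
import Pool.Agent.H600R3.WS.TaskB
import Pool.Agent.H296R3.WS.TaskC
import Pool.Agent.H508R3.WS.TaskDOf

/-!
# Metrics with convergent separation and spanning growth rates

Positive answer to the question of Weiss (one metric for `sep` and `span` and all `ε > 0`) for all
zero-dimensional systems, all systems whose entropy is attained at a scale, and all inverse limits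
of such systems.
-/

set_option autoImplicit false

open Filter Topology

namespace Pool.Agent.Results.MP_6b0aee_an.StableSystems

/-- the Bowen metric `D_T(x, y) = max_{0 ≤ t ≤ T - 1} D(F^t x, F^t y)` -/
noncomputable def bowen {X : Type} (D : X → X → ℝ) (F : X → X) (T : ℕ) (x y : X) : ℝ :=
  ⨆ t : Fin T, D (F^[t] x) (F^[t] y)

/-- the largest cardinality of an `(ε, D_T)`-separated set -/
noncomputable def sep {X : Type} (D : X → X → ℝ) (F : X → X) (ε : ℝ) (T : ℕ) : ℕ :=
  sSup {n | ∃ E : Finset X, (∀ x ∈ E, ∀ y ∈ E, x ≠ y → ε < bowen D F T x y) ∧ E.card = n}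

/-- the smallest cardinality of an `(ε, D_T)`-spanning set -/
noncomputable def span {X : Type} (D : X → X → ℝ) (F : X → X) (ε : ℝ) (T : ℕ) : ℕ :=
  sInf {n | ∃ S : Finset X, (∀ x, ∃ y ∈ S, bowen D F T x y ≤ ε) ∧ S.card = n}

/-- `(1 / T) ln a(T) → h` -/
def Rate (a : ℕ → ℕ) (h : ℝ) : Prop :=
  Tendsto (fun T : ℕ => 1 / (T : ℝ) * Real.log (a T)) atTop (𝓝 h)

/-- `D` is a metric on `X` which induces the topology of `X` -/
structure EquivMetric {X : Type} [TopologicalSpace X] (D : X → X → ℝ) : Prop where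
  self : ∀ x, D x x = 0
  pos : ∀ x y, x ≠ y → 0 < D x y
  symm : ∀ x y, D x y = D y x
  tri : ∀ x y z, D x z ≤ D x y + D y z
  nhds : ∀ (x : X) (s : Set X), s ∈ 𝓝 x ↔ ∃ r : ℝ, 0 < r ∧ {y | D x y < r} ⊆ s

/-- the property asked for: one equivalent metric for which both limits exist for all `ε > 0` -/
def Weiss (X : Type) [MetricSpace X] (F : X → X) : Prop :=
  ∃ D : X → X → ℝ, EquivMetric D ∧ ∀ ε : ℝ, 0 < ε →
    (∃ h, Rate (sep D F ε) h) ∧ (∃ h, Rate (span D F ε) h)

/-- `h` is the topological entropy of `F` and it is attained at the scale `δ`: the growth rate of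
`span(δ, d_T)` is `h` and no growth rate of `sep(ε, d_T)` exceeds `h` -/
def AttainedAt (X : Type) [MetricSpace X] (F : X → X) (δ h : ℝ) : Prop :=
  Rate (span (fun x y : X => dist x y) F δ) h ∧ ∀ ε : ℝ, 0 < ε → ∀ h' : ℝ, h < h' →
    ∀ᶠ T : ℕ in atTop, 1 / (T : ℝ) * Real.log (sep (fun x y : X => dist x y) F ε T) < h'

/-- the system is zero-dimensional, or its entropy is attained at some scale -/
def Basic (X : Type) [MetricSpace X] (F : X → X) : Prop :=
  TotallyDisconnectedSpace X ∨ ∃ δ h : ℝ, 0 < δ ∧ AttainedAt X F δ h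

/-- `(X, F)` is the inverse limit of the systems `(Y n, G n)`: `π n` are factor maps onto `Y n`,
`θ n : Y (n + 1) → Y n` are compatible with them, and together the `π n` separate points -/
structure InverseLimit (X : Type) [MetricSpace X] (F : X → X) (Y : ℕ → Type)
    [∀ n, MetricSpace (Y n)] (G : ∀ n, Y n → Y n) (π : ∀ n, X → Y n) (θ : ∀ n, Y (n + 1) → Y n) :
    Prop where
  cont : ∀ n, Continuous (G n)
  contπ : ∀ n, Continuous (π n)
  surj : ∀ n, Function.Surjective (π n)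
  contθ : ∀ n, Continuous (θ n)
  semi : ∀ n x, π n (F x) = G n (π n x)
  comp : ∀ n x, π n x = θ n (π (n + 1) x)
  sepPts : ∀ x y, (∀ n, π n x = π n y) → x = y

open Pool.Agent.H508R3.WS in
theorem lt_bowen {X : Type} (D : X → X → ℝ) (F : X → X) (T : ℕ) (hT : 0 < T) (ε : ℝ) (x y : X) :
    ε < bowen D F T x y ↔ ∃ t < T, (F^[t] x, F^[t] y) ∉ Le D ε := by
  have : Nonempty (Fin T) := ⟨⟨0, hT⟩⟩
  unfold bowen
  rw [lt_ciSup_iff (Set.finite_range _).bddAbove]
  constructor
  · rintro ⟨t, ht⟩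
    exact ⟨t.1, t.2, fun h => absurd (show D (F^[t.1] x) (F^[t.1] y) ≤ ε from h) (not_le.mpr ht)⟩
  · rintro ⟨t, ht, h⟩
    exact ⟨⟨t, ht⟩, not_le.mp h⟩

open Pool.Agent.H508R3.WS in
theorem bowen_le {X : Type} (D : X → X → ℝ) (F : X → X) (T : ℕ) (hT : 0 < T) (ε : ℝ) (x y : X) :
    bowen D F T x y ≤ ε ↔ ∀ t < T, (F^[t] x, F^[t] y) ∈ Le D ε := by
  have h := (lt_bowen D F T hT ε x y).not
  push Not at h
  exact h

open Pool.Agent.H508R3.WS in
theorem sep_eq {X : Type} (D : X → X → ℝ) (F : X → X) (T : ℕ) (hT : 0 < T) (ε : ℝ) :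
    sep D F ε T = sepN (Le D ε) F T := by
  unfold sep sepN Pool.Agent.H508R3.WS.Sep
  simp_rw [lt_bowen D F T hT ε]

open Pool.Agent.H508R3.WS in
theorem span_eq {X : Type} (D : X → X → ℝ) (F : X → X) (T : ℕ) (hT : 0 < T) (ε : ℝ) :
    span D F ε T = spanN (Le D ε) F T := by
  unfold span spanN Span
  simp_rw [bowen_le D F T hT ε]

theorem rate_congr (a b : ℕ → ℕ) (h : ∀ T, 0 < T → a T = b T) (c : ℝ) :
    Rate a c ↔ Pool.Agent.H508R3.WS.Rate b c := by
  unfold Rate Pool.Agent.H508R3.WS.Rate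
  refine tendsto_congr' ?_
  filter_upwards [eventually_gt_atTop 0] with T hT
  rw [h T hT, one_div, inv_mul_eq_div]

open Pool.Agent.H508R3.WS in
theorem weiss_of_stable (hA2 : TaskA2) (hA3 : TaskA3) {X : Type} [MetricSpace X] [CompactSpace X]
    (F : X → X) (hF : Continuous F) (hS : Stable X F) : Weiss X F := by
  obtain ⟨D, hD, h⟩ := good_of_stable' hA2 hA3 F hF hS
  refine ⟨D, ⟨hD.self, hD.pos, hD.symm, hD.tri, hD.nhds⟩, fun ε hε => ?_⟩
  obtain ⟨c, c', h1, h2⟩ := h ε hε
  exact ⟨⟨c, (rate_congr _ _ (fun T hT => sep_eq D F T hT ε) c).mpr h1⟩,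
    ⟨c', (rate_congr _ _ (fun T hT => span_eq D F T hT ε) c').mpr h2⟩⟩

open Pool.Agent.H508R3.WS in
theorem stable_of_basic (hB : TaskB) (hC : TaskC) {X : Type} [MetricSpace X] [CompactSpace X]
    (F : X → X) (hF : Continuous F) (h : Basic X F) : Stable X F := by
  rcases h with h | ⟨δ, c, hδ, h1, h2⟩
  · exact hB X F hF
  · refine hC X F hF δ c hδ
      ((rate_congr _ _ (fun T hT => span_eq (fun x y : X => dist x y) F T hT δ) c).mp h1)
      fun ε hε c' hc' => ?_
    filter_upwards [h2 ε hε c' hc', eventually_gt_atTop 0] with T hT hT0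
    rw [← sep_eq (fun x y : X => dist x y) F T hT0 ε]
    rwa [one_div, inv_mul_eq_div] at hT

open Pool.Agent.H508R3.WS in
theorem result_aux (hA2 : TaskA2) (hA3 : TaskA3) (hB : TaskB) (hC : TaskC) (hD : TaskD) :
    ∀ (X : Type) [MetricSpace X] [CompactSpace X] (F : X → X), Continuous F →
      ∀ (Y : ℕ → Type) [∀ n, MetricSpace (Y n)] [∀ n, CompactSpace (Y n)] (G : ∀ n, Y n → Y n)
        (π : ∀ n, X → Y n) (θ : ∀ n, Y (n + 1) → Y n), InverseLimit X F Y G π θ →
        (∀ n, Basic (Y n) (G n)) → Weiss X F := by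
  intro X _ _ F hF Y _ _ G π θ hI hY
  exact weiss_of_stable hA2 hA3 F hF (hD X F hF Y G π θ hI.cont hI.contπ hI.surj hI.contθ hI.semi
    hI.comp hI.sepPts fun n => stable_of_basic hB hC (G n) (hI.cont n) (hY n))

/-- Every zero-dimensional system, every system whose entropy is attained at some scale, and every
inverse limit of such systems has an equivalent metric `D` for which the growth rates of
`sep(ε, D_T)` and `span(ε, D_T)` converge for all `ε > 0`. -/
theorem result :
    (∀ (X : Type) [MetricSpace X] [CompactSpace X] (F : X → X), Continuous F → Basic X F →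
      Weiss X F) ∧
    (∀ (X : Type) [MetricSpace X] [CompactSpace X] (F : X → X), Continuous F →
      ∀ (Y : ℕ → Type) [∀ n, MetricSpace (Y n)] [∀ n, CompactSpace (Y n)] (G : ∀ n, Y n → Y n)
        (π : ∀ n, X → Y n) (θ : ∀ n, Y (n + 1) → Y n), InverseLimit X F Y G π θ →
        (∀ n, Basic (Y n) (G n)) → Weiss X F) := by
  have hA2 := Pool.Agent.H508R3.WS.taskA2 Pool.Agent.H508R3.WS.A1x.taskA1
  refine ⟨fun X _ _ F hF hX => weiss_of_stable hA2 Pool.Agent.H189R3.WS.taskA3 F hF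
    (stable_of_basic Pool.Agent.H600R3.WSB.taskB Pool.Agent.H296R3.WS.taskC F hF hX),
    result_aux hA2 Pool.Agent.H189R3.WS.taskA3 Pool.Agent.H600R3.WSB.taskB
      Pool.Agent.H296R3.WS.taskC Pool.Agent.H508R3.WS.taskD⟩

end Pool.Agent.Results.MP_6b0aee_an.StableSystems
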